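import Pool.Agent.Lib.MP_7ae50b_co.On.Odd

/-! The even lengths and a set of odd lengths, in consecutive pairs; the main theorem. -/

set_option autoImplicit false

namespace Pool.Agent.Lib.MP_7ae50b_co.On

open Multiset

/-- edges of length one at all even distances up to `b` -/
def G2 (b : ℕ) (L : Multiset ℕ) : Prop := ∃ v j, G v j (fun d => d % 2 = 0 ∧ 2 ≤ d ∧ d ≤ b) L

/-- a waiting length, `0` for none -/
def op (p : ℕ) : Multiset ℕ := if p = 0 then 0 else {p}

variable {b : ℕ} {L : Multiset ℕ}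

theorem G2.even (h : G2 b L) {y k : ℕ} (h1 : y % 2 = 0) (h2 : 2 ≤ y) (h3 : y ≤ b)
    (h4 : k % 2 = 0) : G2 y (y ::ₘ (y + k) ::ₘ (replicate k 1 + L)) := by
  obtain ⟨v, j, h⟩ := h
  obtain ⟨y, rfl⟩ : ∃ z, y = z + 1 := ⟨y - 1, by omega⟩
  refine ⟨_, _, h.ins (y := y) ⟨h1, h2, h3⟩ (k + 1) (fun d hd => by omega) (Or.inl ?_)⟩
  rw [show y + (k + 1) = y + 1 + k by omega]
  simp only [replicate_succ, ← singleton_add]
  abel

theorem G2.odd (h : G2 b L) {y k : ℕ} (h1 : y % 2 = 1) (h3 : y + 1 ≤ b)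
    (h4 : k % 2 = 0) : G2 (y + 1) ((y + 2 + k) ::ₘ y ::ₘ (replicate k 1 + L)) := by
  obtain ⟨v, j, h⟩ := h
  refine ⟨_, _, h.ins (y := y) ⟨by omega, by omega, h3⟩ (k + 1) (fun d hd => by omega)
    (Or.inr ?_)⟩
  rw [show y + 1 + (k + 1) = y + 2 + k by omega]
  simp only [replicate_succ, ← singleton_add]
  abel

theorem G2.last (h : G2 b L) (h3 : 2 ≤ b) (k : ℕ) : G2 0 ((k + 2) ::ₘ (replicate k 1 + L)) := by
  obtain ⟨v, j, h⟩ := h
  refine ⟨_, _, h.ins (y := 1) ⟨rfl, le_rfl, h3⟩ k (fun d hd => by omega) (Or.inr ?_)⟩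
  rw [show 1 + 1 + k = k + 2 by omega, cons_swap]

theorem pairs (s : List ℕ) : ∀ b p q : ℕ, b % 2 = 0 → 2 ≤ b →
    s.Pairwise (fun x y => y ≤ x ∧ (x % 2 = 1 → y < x)) → (∀ z ∈ s, 2 ≤ z ∧ z ≤ b) →
    p % 2 = 0 → (p ≠ 0 → ∀ z ∈ s, z ≤ p) → (q ≠ 0 → q % 2 = 1 ∧ 3 ≤ q ∧ ∀ z ∈ s, z < q) →
    ∃ c, c + 4 ≤ (if p = 0 then b else p) + (if q = 0 then b else q) ∧
      ∀ L, G2 b L → G2 0 ((s : Multiset ℕ) + op p + op q + replicate c 1 + L) := by
  induction s with
  | nil =>
    intro b p q b1 b2 _ _ p1 _ q1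
    have e1 : ∀ b L, 2 ≤ b → G2 b L → G2 0 (op p + replicate (p - 2) 1 + L) := by
      intro b L hb h
      by_cases c : p = 0
      · obtain ⟨v, j, h⟩ := h
        exact ⟨v, j, by simpa [op, c] using h.mono fun d hd => by omega⟩
      · obtain ⟨k, rfl⟩ : ∃ k, p = k + 2 := ⟨p - 2, by omega⟩
        simpa [op, add_assoc] using h.last hb k
    by_cases c : q = 0
    · refine ⟨p - 2, by split_ifs <;> omega, fun L h => ?_⟩
      simpa [op, c] using e1 b L b2 h
    · obtain ⟨q2, q3, -⟩ := q1 c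
      obtain ⟨k, rfl⟩ : ∃ k, q = 1 + 2 + k := ⟨q - 3, by omega⟩
      refine ⟨p - 2 + (k + 1), by split_ifs <;> omega, fun L h => ?_⟩
      convert e1 _ _ le_rfl (h.odd (y := 1) (k := k) rfl b2 (by omega)) using 1
      rw [show op (1 + 2 + k) = {1 + 2 + k} from if_neg c]
      simp only [replicate_add, replicate_one, ← singleton_add, coe_nil]
      abel
  | cons z s ih =>
    intro b p q b1 b2 s1 s2 p1 p2 q1
    obtain ⟨s3, s1⟩ := List.pairwise_cons.1 s1
    obtain ⟨z1, z2⟩ := s2 z List.mem_cons_self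
    have s4 : ∀ w ∈ s, 2 ≤ w ∧ w ≤ b := fun w hw => s2 w (List.mem_cons_of_mem _ hw)
    have p3 : p ≠ 0 → ∀ w ∈ s, w ≤ p := fun c w hw => p2 c w (List.mem_cons_of_mem _ hw)
    have q3 : q ≠ 0 → q % 2 = 1 ∧ 3 ≤ q ∧ ∀ w ∈ s, w < q := fun c =>
      ⟨(q1 c).1, (q1 c).2.1, fun w hw => (q1 c).2.2 w (List.mem_cons_of_mem _ hw)⟩
    have oz : op z = {z} := if_neg (by omega)
    have o0 : op 0 = 0 := rfl
    rcases Nat.mod_two_eq_zero_or_one z with hz | hz
    · by_cases c : p = 0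
      · obtain ⟨c', k1, k2⟩ := ih b z q b1 b2 s1 s4 hz (fun _ w hw => (s3 w hw).1) q3
        refine ⟨c', by split_ifs at k1 ⊢ <;> omega, fun L h => ?_⟩
        convert k2 L h using 1
        rw [c, oz, o0]
        simp only [← cons_coe, ← singleton_add]
        abel
      · obtain ⟨c', k1, k2⟩ := ih z 0 q hz z1 s1 (fun w hw => ⟨(s4 w hw).1, (s3 w hw).1⟩) rfl
          (fun c => absurd rfl c) q3
        obtain ⟨k, rfl⟩ := Nat.exists_eq_add_of_le (p2 c z List.mem_cons_self)
        refine ⟨c' + k, by split_ifs at k1 ⊢ <;> omega, fun L h => ?_⟩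
        convert k2 _ (h.even (k := k) hz z1 z2 (by omega)) using 1
        rw [show op (z + k) = {z + k} from if_neg c, o0]
        simp only [replicate_add, ← cons_coe, ← singleton_add]
        abel
    · by_cases c : q = 0
      · obtain ⟨c', k1, k2⟩ := ih b p z b1 b2 s1 s4 p1 p3
          fun _ => ⟨hz, by omega, fun w hw => (s3 w hw).2 hz⟩
        refine ⟨c', by split_ifs at k1 ⊢ <;> omega, fun L h => ?_⟩
        convert k2 L h using 1
        rw [c, oz, o0]
        simp only [← cons_coe, ← singleton_add]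
        abel
      · obtain ⟨c', k1, k2⟩ := ih (z + 1) p 0 (by omega) (by omega) s1
          (fun w hw => ⟨(s4 w hw).1, (s3 w hw).1.trans (Nat.le_succ _)⟩) p1 p3
          fun c => absurd rfl c
        have q4 := (q1 c).2.2 z List.mem_cons_self
        have q5 := (q1 c).1
        obtain ⟨k, rfl⟩ : ∃ k, q = z + 2 + k := ⟨q - z - 2, by omega⟩
        refine ⟨c' + k, by split_ifs at k1 ⊢ <;> omega, fun L h => ?_⟩
        convert k2 _ (h.odd (y := z) (k := k) hz (by omega) (by omega)) using 1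
        rw [show op (z + 2 + k) = {z + 2 + k} from if_neg c, o0]
        simp only [replicate_add, ← cons_coe, ← singleton_add]
        abel

theorem ed_zip (g : ℕ → ℕ) (l : List ℕ) :
    (List.zipWith (fun a b => g (a - b + (b - a))) l l.tail : Multiset ℕ) =
      ((ed l).map Prod.snd).map g := by
  induction l with
  | nil => simp [ed]
  | cons a l ih =>
    cases l with
    | nil => simp [ed]
    | cons c l =>
      rw [List.tail_cons] at ih ⊢
      rw [List.zipWith_cons_cons, ← cons_coe, ih, ed, map_cons, map_cons]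
      rfl

theorem card_ed (a : ℕ) (l : List ℕ) : card (ed (a :: l)) = l.length := by
  induction l generalizing a with
  | nil => simp [ed]
  | cons c l ih => rw [ed, card_cons, ih, List.length_cons]

/-- A list with entries at most `m` and at least `4 m - 3` ones is the list of differences of an
ordering of an interval. -/
theorem linear {m : ℕ} (L : Multiset ℕ) (h1 : ∀ x ∈ L, 1 ≤ x ∧ x ≤ m)
    (h2 : 4 * m ≤ L.count 1 + 3) : G2 0 L := by
  rcases Nat.eq_zero_or_pos m with rfl | hm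
  · rw [eq_zero_of_forall_notMem (s := L) fun z hz => by have := h1 z hz; omega]
    exact ⟨1, 1, 0, _, st_dt 0, rfl, fun d hd => by omega, by simp [tk]⟩
  have e1 := filter_add_not (fun z => z = 1) L
  have e2 := filter_add_not (fun z => z % 2 = 1) (L.filter fun z => ¬ z = 1)
  rw [filter_eq'] at e1
  obtain ⟨K, H, c₁, v, k1, k2, k3, k4⟩ := odd_part (m := m)
    ((L.filter fun z => ¬ z = 1).filter fun z => z % 2 = 1) fun z hz => by
      have a1 := mem_filter.1 hz
      have a2 := mem_filter.1 a1.1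
      have := h1 z a2.1
      omega
  have hH : ∀ z ∈ H, z % 2 = 1 ∧ 2 ≤ z ∧ z ≤ m := fun z hz => by
    have a1 := mem_filter.1 (k1 ▸ mem_add.2 (Or.inr hz))
    have a2 := mem_filter.1 a1.1
    have := h1 z a2.1
    omega
  have hE : ∀ z ∈ (L.filter fun z => ¬ z = 1).filter fun z => ¬ z % 2 = 1,
      ¬ z % 2 = 1 ∧ 2 ≤ z ∧ z ≤ m := fun z hz => by
    have a1 := mem_filter.1 hz
    have a2 := mem_filter.1 a1.1
    have := h1 z a2.1
    omega
  rw [k1] at e2
  generalize (L.filter fun z => ¬ z = 1).filter (fun z => ¬ z % 2 = 1) = Ev at e2 hE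
  obtain ⟨s, s1, s2⟩ : ∃ s : List ℕ, (s : Multiset ℕ) = H + Ev ∧ s.Pairwise (· ≥ ·) :=
    ⟨(H + Ev).sort (· ≥ ·), sort_eq _ _, pairwise_sort _ _⟩
  have s3 : s.Pairwise fun x y => x % 2 = 1 → x ≠ y := by
    have a1 : (s.filter fun z => z % 2 = 1).Nodup := by
      rw [← coe_nodup, ← filter_coe, s1, filter_add, filter_eq_self.2 fun z hz => (hH z hz).1,
        filter_eq_nil.2 fun z hz => (hE z hz).1, add_zero]
      exact k2
    refine (List.pairwise_filter.1 a1).imp fun {x y} h hx e => h (by simpa using hx) ?_ e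
    simpa [← e] using hx
  obtain ⟨c₂, k5, k6⟩ := pairs s (2 * ((m + 1) / 2)) 0 0 (by omega) (by omega)
    ((s2.and s3).imp fun {x y} h => ⟨h.1, fun hx => lt_of_le_of_ne h.1 (h.2 hx).symm⟩)
    (fun z hz => by
      rcases mem_add.1 (s1 ▸ mem_coe.2 hz) with a | a
      · have := hH z a
        omega
      · have := hE z a
        omega) rfl (fun c => absurd rfl c) fun c => absurd rfl c
  simp only [if_true] at k5
  obtain ⟨n, hn⟩ : ∃ n, L.count 1 = c₂ + n + c₁ := ⟨L.count 1 - c₂ - c₁, by omega⟩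
  convert k6 _ ⟨_, _, (k4.run n).mono fun d hd => by omega⟩ using 1
  rw [← e1, ← e2, hn, s1, show op 0 = 0 from rfl]
  simp only [replicate_add]
  abel

theorem main (v m : ℕ) (L : Multiset ℕ) (hv : 1 ≤ v) (h0 : card L = v - 1)
    (h1 : ∀ x ∈ L, 1 ≤ x ∧ x ≤ v / 2) (h2 : ∀ x ∈ L, x ≤ m) (h3 : 4 * m ≤ L.count 1 + 3) :
    ∃ P : List ℕ, P.Perm (List.range v) ∧
      Multiset.ofList
        (List.zipWith (fun a b => min (a - b + (b - a)) (v - (a - b + (b - a)))) P P.tail) = L := by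
  obtain ⟨w, j, f, E, ⟨l, k1, k2, rfl⟩, -, -, k3⟩ :=
    linear L (fun x hx => ⟨(h1 x hx).1, h2 x hx⟩) h3
  have e : w = v := by
    cases l with
    | nil => simp at k1
    | cons a l =>
      have a1 := congrArg card k2
      have a2 := congrArg card k3
      rw [card_map, card_ed] at a2
      rw [card_range, coe_card, List.length_cons] at a1
      omega
  subst e
  refine ⟨l, coe_eq_coe.1 k2, ?_⟩
  rw [ed_zip (fun d => min d (w - d)), k3]
  refine (map_congr rfl fun x hx => ?_).trans (map_id L)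
  have := h1 x hx
  simp only [id]
  omega

end Pool.Agent.Lib.MP_7ae50b_co.On
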