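import Mathlib

/-! Paths on `0, …, v - 1`, their edges, and three ways to extend them. -/

set_option autoImplicit false

namespace Pool.Agent.Lib.MP_7ae50b_co.On

open Multiset

/-- lower end and length of an edge -/
def key (a b : ℕ) : ℕ × ℕ := (min a b, a - b + (b - a))

/-- the edges of a path -/
def ed : List ℕ → Multiset (ℕ × ℕ)
  | a :: b :: l => key a b ::ₘ ed (b :: l)
  | _ => 0

/-- the edges of a run -/
def tk (v k : ℕ) : Multiset (ℕ × ℕ) := (range k).map fun i => (v + i, 1)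

/-- a descending run -/
def dt (v : ℕ) : ℕ → List ℕ
  | 0 => []
  | k + 1 => (v + k) :: dt v k

theorem key_le {a b : ℕ} (h : a ≤ b) : key a b = (a, b - a) := by
  simp only [key, Prod.mk.injEq]; omega

theorem key_ge {a b : ℕ} (h : a ≤ b) : key b a = (a, b - a) := by
  simp only [key, Prod.mk.injEq]; omega

theorem tk_succ (v k : ℕ) : tk v (k + 1) = (v + k, 1) ::ₘ tk v k := by
  simp only [tk, range_succ, map_cons]

theorem tk_snd (v k : ℕ) : (tk v k).map Prod.snd = replicate k 1 := by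
  simp [tk]

theorem mem_tk {v k i : ℕ} (h : i < k) : (v + i, 1) ∈ tk v k :=
  mem_map.2 ⟨i, mem_range.2 h, rfl⟩

theorem ed_dt (v k y : ℕ) (l : List ℕ) :
    ed ((v + k) :: (dt v k ++ y :: l)) = key v y ::ₘ (tk v k + ed (y :: l)) := by
  induction k with
  | zero => simp [dt, ed, tk]
  | succ k ih =>
    rw [dt, List.cons_append, ed, ih, tk_succ, key_ge (by omega), cons_swap, cons_add]
    congr 3
    omega

theorem ed_dt0 (v k : ℕ) : ed ((v + k) :: dt v k) = tk v k := by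
  induction k with
  | zero => simp [dt, ed, tk]
  | succ k ih =>
    rw [dt, ed, ih, tk_succ, key_ge (by omega)]
    congr 2
    omega

theorem ed_ut (v k x : ℕ) (l : List ℕ) :
    ed (x :: ((dt v k).reverse ++ (v + k) :: l)) = key x v ::ₘ (tk v k + ed ((v + k) :: l)) := by
  induction k generalizing l with
  | zero => simp [dt, ed, tk]
  | succ k ih =>
    rw [dt, List.reverse_cons, List.append_assoc, List.singleton_append, ih, ed, tk_succ,
      key_le (by omega : v + k ≤ v + (k + 1)), cons_add, add_cons]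
    congr 3
    omega

theorem dt_range (v k : ℕ) : (dt v k : Multiset ℕ) + range v = range (v + k) := by
  induction k with
  | zero => simp [dt]
  | succ k ih => rw [dt, ← cons_coe, cons_add, ih, ← add_assoc, range_succ]

theorem ed_app (l : List ℕ) (a : ℕ) (r : List ℕ) :
    ed (l ++ a :: r) = ed (l ++ [a]) + ed (a :: r) := by
  induction l with
  | nil => simp [ed]
  | cons b l ih =>
    cases l with
    | nil => simp [ed]
    | cons c l =>
      simp only [List.cons_append, ed, cons_add] at ih ⊢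
      rw [ih]

theorem ed_split {a : ℕ} {l : List ℕ} (h : (a, 1) ∈ ed l) :
    ∃ l₁ l₂, l = l₁ ++ a :: (a + 1) :: l₂ ∨ l = l₁ ++ (a + 1) :: a :: l₂ := by
  induction l with
  | nil => simp [ed] at h
  | cons b l ih =>
    cases l with
    | nil => simp [ed] at h
    | cons c l =>
      rw [ed, mem_cons] at h
      rcases h with h | h
      · simp only [key, Prod.mk.injEq] at h
        rcases le_total b c with k | k
        · exact ⟨[], l, Or.inl (by rw [show b = a by omega, show c = a + 1 by omega]; rfl)⟩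
        · exact ⟨[], l, Or.inr (by rw [show b = a + 1 by omega, show c = a by omega]; rfl)⟩
      · obtain ⟨l₁, l₂, h⟩ := ih h
        exact ⟨b :: l₁, l₂, h.imp (fun h => by rw [h]; rfl) fun h => by rw [h]; rfl⟩

/-- a path on `0, …, v - 1` that starts at `f` and has the edges `E` -/
def St (v f : ℕ) (E : Multiset (ℕ × ℕ)) : Prop :=
  ∃ l : List ℕ, l.head? = some f ∧ (l : Multiset ℕ) = range v ∧ ed l = E

theorem ins {v f : ℕ} {l₁ l₂ : List ℕ} (p q k : ℕ) (h1 : (l₁ ++ p :: q :: l₂).head? = some f)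
    (h2 : ((l₁ ++ p :: q :: l₂ : List ℕ) : Multiset ℕ) = range v) :
    St (v + k + 1) f (key p v ::ₘ key (v + k) q ::ₘ (tk v k + (ed (l₁ ++ [p]) + ed (q :: l₂)))) ∧
    St (v + k + 1) f (key p (v + k) ::ₘ key v q ::ₘ (tk v k + (ed (l₁ ++ [p]) + ed (q :: l₂)))) := by
  have h3 := dt_range v k
  constructor
  · refine ⟨l₁ ++ p :: ((dt v k).reverse ++ (v + k) :: q :: l₂), ?_, ?_, ?_⟩
    · cases l₁ <;> exact h1
    · rw [range_succ, ← h3, ← h2]
      simp only [← coe_add, ← cons_coe, coe_reverse, ← singleton_add]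
      abel
    · rw [ed_app, ed_ut, ed]
      simp only [← singleton_add]
      abel
  · refine ⟨l₁ ++ p :: (v + k) :: (dt v k ++ q :: l₂), ?_, ?_, ?_⟩
    · cases l₁ <;> exact h1
    · rw [range_succ, ← h3, ← h2]
      simp only [← coe_add, ← cons_coe, ← singleton_add]
      abel
    · rw [ed_app, ed, ed_dt]
      simp only [← singleton_add]
      abel

theorem St.ins {v f a : ℕ} {E : Multiset (ℕ × ℕ)} (h : St v f ((a, 1) ::ₘ E)) (ha : a + 1 ≤ v)
    (k : ℕ) : St (v + k + 1) f ((a, v - a) ::ₘ (a + 1, v + k - (a + 1)) ::ₘ (tk v k + E)) ∧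
      St (v + k + 1) f ((a, v + k - a) ::ₘ (a + 1, v - (a + 1)) ::ₘ (tk v k + E)) := by
  obtain ⟨l, h1, h2, h3⟩ := h
  obtain ⟨l₁, l₂, rfl | rfl⟩ := ed_split (h3 ▸ mem_cons_self (a, 1) E : (a, 1) ∈ ed l)
  · have h4 := On.ins a (a + 1) k h1 h2
    rw [ed_app, ed, key_le (Nat.le_succ a), add_cons, Nat.succ_sub le_rfl, Nat.sub_self,
      cons_inj_right] at h3
    rwa [h3, key_le (by omega : a ≤ v), key_le (by omega : a ≤ v + k), key_ge ha,
      key_ge (by omega : a + 1 ≤ v + k)] at h4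
  · have h4 := On.ins (a + 1) a k h1 h2
    rw [ed_app, ed, key_ge (Nat.le_succ a), add_cons, Nat.succ_sub le_rfl, Nat.sub_self,
      cons_inj_right] at h3
    rw [h3, key_ge (by omega : a ≤ v), key_ge (by omega : a ≤ v + k), key_le ha,
      key_le (by omega : a + 1 ≤ v + k), cons_swap, cons_swap (a + 1, v + k - (a + 1))] at h4
    exact h4.symm

/-- the free end is `v - j`, there are edges of length one with lower end `v - d` for `D d`, and
the lengths are `L` -/
def G (v j : ℕ) (D : ℕ → Prop) (L : Multiset ℕ) : Prop :=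
  ∃ f E, St v f E ∧ f + j = v ∧ (∀ d, D d → ∃ a, a + d = v ∧ (a, 1) ∈ E) ∧ E.map Prod.snd = L

variable {v j : ℕ} {D D' : ℕ → Prop} {L L' : Multiset ℕ}

theorem G.mono (h : G v j D L) (hD : ∀ d, D' d → D d) : G v j D' L := by
  obtain ⟨f, E, h1, h2, h3, h4⟩ := h
  exact ⟨f, E, h1, h2, fun d hd => h3 d (hD d hd), h4⟩

theorem G.free (h : G v j D L) (hD : ∀ d, D' d → (1 ≤ d ∧ D (d - 1)) ∨ (j = 1 ∧ d = 2)) :
    G (v + 1) 1 D' (j ::ₘ L) := by
  obtain ⟨f, E, ⟨l, k1, k2, k3⟩, h2, h3, h4⟩ := h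
  obtain ⟨l, rfl⟩ : ∃ r, l = f :: r := by
    cases l with
    | nil => simp at k1
    | cons b r => exact ⟨r, by simpa using k1⟩
  refine ⟨v, (f, j) ::ₘ E, ⟨v :: f :: l, rfl, by rw [range_succ, ← k2]; rfl, ?_⟩, rfl,
    fun d hd => ?_, by rw [map_cons, h4]⟩
  · rw [ed, k3, key_ge (by omega)]
    congr 2
    omega
  · rcases hD d hd with ⟨c, c'⟩ | ⟨rfl, rfl⟩
    · obtain ⟨a, a1, a2⟩ := h3 _ c'
      exact ⟨a, by omega, mem_cons_of_mem a2⟩
    · exact ⟨f, by omega, mem_cons_self _ _⟩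

theorem G.ins (h : G v j D L) {y : ℕ} (hy : D (y + 1)) (k : ℕ)
    (hD : ∀ d, D' d → (2 ≤ d ∧ d ≤ k + 1) ∨ (k + 1 ≤ d ∧ D (d - (k + 1)) ∧ d ≠ y + 1 + (k + 1)))
    (hL : 1 ::ₘ L' = (y + 1) ::ₘ (y + k) ::ₘ (replicate k 1 + L) ∨
      1 ::ₘ L' = (y + 1 + k) ::ₘ y ::ₘ (replicate k 1 + L)) :
    G (v + k + 1) (j + k + 1) D' L' := by
  obtain ⟨f, E, h1, h2, h3, h4⟩ := h
  obtain ⟨a, a1, a2⟩ := h3 _ hy
  obtain ⟨E, rfl⟩ := exists_cons_of_mem a2
  have h5 := h1.ins (by omega) k
  have h6 : ∀ p q : ℕ × ℕ, ∀ d, D' d →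
      ∃ b, b + d = v + k + 1 ∧ (b, 1) ∈ p ::ₘ q ::ₘ (tk v k + E) := by
    intro p q d hd
    rcases hD d hd with ⟨c1, c2⟩ | ⟨c1, c2, c3⟩
    · exact ⟨v + (k + 1 - d), by omega, mem_cons_of_mem (mem_cons_of_mem
        (mem_add.2 (Or.inl (mem_tk (by omega)))))⟩
    · obtain ⟨b, b1, b2⟩ := h3 _ c2
      refine ⟨b, by omega, mem_cons_of_mem (mem_cons_of_mem (mem_add.2 (Or.inr
        ((mem_cons.1 b2).resolve_left fun e => ?_))))⟩
      simp only [Prod.mk.injEq] at e
      omega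
  rw [← h4, map_cons, add_cons] at hL
  dsimp only at hL
  rw [cons_swap (y + k) 1, cons_swap (y + 1) 1, cons_swap y 1, cons_swap (y + 1 + k) 1,
    cons_inj_right, cons_inj_right] at hL
  rcases hL with rfl | rfl
  · refine ⟨f, _, h5.1, by omega, h6 _ _, ?_⟩
    rw [map_cons, map_cons, Multiset.map_add, tk_snd]
    congr 2 <;> omega
  · refine ⟨f, _, h5.2, by omega, h6 _ _, ?_⟩
    rw [map_cons, map_cons, Multiset.map_add, tk_snd]
    congr 2 <;> omega

theorem G.run (h : G v 1 D L) (n : ℕ) :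
    G (v + n) 1 (fun d => 2 ≤ d ∧ d ≤ n + 1) (replicate n 1 + L) := by
  induction n with
  | zero => simpa using h.mono fun d hd => by omega
  | succ n ih =>
    rw [replicate_succ, cons_add]
    exact ih.free fun d hd => by omega

end Pool.Agent.Lib.MP_7ae50b_co.On
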