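import Pool.Agent.Lib.MP_7ae50b_co.On.Moves

/-! The odd lengths, up to one copy of each. -/

set_option autoImplicit false

namespace Pool.Agent.Lib.MP_7ae50b_co.On

open Multiset

/-- edges of length one above and below the free end -/
def D1 (j x d : ℕ) : Prop := (d % 2 = 0 ∧ 2 ≤ d ∧ d < j) ∨ (d % 2 = 1 ∧ j < d ∧ d ≤ x)

/-- the lengths `K` can be added so that the free end is on top -/
def Q (x j : ℕ) (K : Multiset ℕ) : Prop :=
  j % 2 = 1 ∧ j ≤ x ∧ ∀ v L, G v j (D1 j x) L → ∃ v', G v' 1 (fun _ => False) (K + L)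

theorem Q.copies {x : ℕ} (hx : x % 2 = 1) (μ : ℕ) : ∀ j K, Q x j K →
    ∃ j' μ', (μ = μ' ∨ μ = μ' + 1) ∧ Q x j' (replicate μ' x + K) := by
  induction μ using Nat.strong_induction_on with
  | _ μ ih =>
    intro j K h
    obtain ⟨h1, h2, h3⟩ := h
    rcases μ with _ | μ
    · exact ⟨j, 0, Or.inl rfl, by simpa using ⟨h1, h2, h3⟩⟩
    by_cases c : j = 1
    · subst c
      obtain ⟨j', μ', k1, k2⟩ := ih μ (by omega) x (x ::ₘ K) ⟨hx, le_rfl, fun v L hG => by
        rw [cons_add, ← add_cons]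
        exact h3 _ _ (hG.free fun d hd => by unfold D1 at *; omega)⟩
      exact ⟨j', μ' + 1, by omega, by rwa [replicate_succ, cons_add, ← add_cons]⟩
    rcases μ with _ | μ
    · exact ⟨j, 0, Or.inr rfl, by simpa using ⟨h1, h2, h3⟩⟩
    obtain ⟨j, rfl⟩ : ∃ i, j = i + 1 + 1 := ⟨j - 2, by omega⟩
    obtain ⟨y, rfl⟩ : ∃ y, x = y + 1 := ⟨x - 1, by omega⟩
    obtain ⟨j', μ', k1, k2⟩ := ih μ (by omega) j ((y + 1) ::ₘ (y + 1) ::ₘ K)
      ⟨by omega, by omega, fun v L hG => by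
        rw [cons_add, cons_add, ← add_cons, ← add_cons]
        refine h3 _ _ (hG.ins (y := y) (by unfold D1; omega) 1 (fun d hd => ?_) (Or.inl ?_))
        · unfold D1 at *
          omega
        · simp only [replicate_one, ← singleton_add]
          abel⟩
    refine ⟨j', μ' + 1 + 1, by omega, ?_⟩
    rwa [replicate_succ, replicate_succ, cons_add, cons_add, ← add_cons, ← add_cons]

theorem plan (n : ℕ) : ∀ M : Multiset ℕ, (∀ z ∈ M, z % 2 = 1 ∧ 3 ≤ z ∧ z ≤ 2 * n + 1) →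
    ∃ j K H, M = K + H ∧ H.Nodup ∧ Q (2 * n + 1) j K := by
  induction n with
  | zero =>
    intro M hM
    refine ⟨1, 0, 0, eq_zero_of_forall_notMem fun z hz => ?_, nodup_zero, rfl, le_rfl,
      fun v L h => ⟨v, by simpa using h.mono fun _ hd => hd.elim⟩⟩
    have := hM z hz
    omega
  | succ n ih =>
    intro M hM
    obtain ⟨x, hx⟩ : ∃ x, x = 2 * (n + 1) + 1 := ⟨_, rfl⟩
    rw [← hx] at hM ⊢
    have h0 : ∀ z ∈ M.filter fun z => ¬ z = x, z % 2 = 1 ∧ 3 ≤ z ∧ z ≤ 2 * n + 1 := fun z hz => by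
      have := mem_filter.1 hz
      have := hM z this.1
      omega
    obtain ⟨j, K, H, h1, h2, h3, h4, h5⟩ := ih _ h0
    obtain ⟨j', μ', k1, k2⟩ := Q.copies (x := x) (by omega) (M.count x) j K ⟨h3, by omega,
      fun v L hG => h5 v L (hG.mono fun d hd => by unfold D1 at *; omega)⟩
    have e := filter_add_not (fun z => z = x) M
    rw [filter_eq', h1] at e
    rcases k1 with k1 | k1
    · exact ⟨j', _, H, by rw [← e, k1, add_assoc], h2, k2⟩
    · refine ⟨j', _, x ::ₘ H, ?_, nodup_cons.2 ⟨fun c => ?_, h2⟩, k2⟩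
      · rw [← e, k1, replicate_succ, cons_add, add_cons, add_assoc]
      · have := h0 x (h1 ▸ mem_add.2 (Or.inr c))
        omega

theorem st_dt (n : ℕ) : St (n + 1) n (tk 0 n) := by
  have h1 := dt_range 0 n
  have h2 := ed_dt0 0 n
  simp only [zero_add, range_zero, add_zero] at h1 h2
  exact ⟨n :: dt 0 n, rfl, by rw [range_succ, ← h1]; rfl, h2⟩

theorem start {x j : ℕ} (h1 : j % 2 = 1) (h2 : j ≤ x) :
    G (x + 1) j (D1 j x) (x ::ₘ replicate (x - 1) 1) := by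
  by_cases c : j = 1
  · subst c
    obtain ⟨y, rfl⟩ : ∃ y, x = y + 1 := ⟨x - 1, by omega⟩
    have h3 := dt_range 0 y
    have h4 := ed_ut 0 y (y + 1) []
    simp only [zero_add, range_zero, add_zero] at h3 h4
    refine ⟨y + 1, _, ⟨_, rfl, ?_, h4⟩, rfl, fun d hd => ?_, ?_⟩
    · rw [range_succ, range_succ, ← h3]
      simp only [← coe_add, ← cons_coe, coe_reverse, ← singleton_add, coe_nil]
      abel
    · unfold D1 at hd
      refine ⟨0 + (y + 2 - d), by omega, mem_cons_of_mem (mem_add.2 (Or.inl (mem_tk ?_)))⟩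
      omega
    · simp [ed, key, tk_snd]
  · obtain ⟨k, rfl⟩ : ∃ k, j = k + 2 := ⟨j - 2, by omega⟩
    obtain ⟨f, rfl⟩ : ∃ f, x = f + 1 + k := ⟨x - 1 - k, by omega⟩
    have h3 := dt_range 0 f
    have h4 := ed_dt 0 f (f + 1 + k) (dt (f + 1) k)
    have h5 := dt_range (f + 1) k
    rw [ed_dt0] at h4
    simp only [zero_add, range_zero, add_zero] at h3 h4
    refine ⟨f, _, ⟨_, rfl, ?_, h4⟩, by omega, fun d hd => ?_, ?_⟩
    · rw [range_succ, ← h5, range_succ, ← h3]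
      simp only [← coe_add, ← cons_coe, ← singleton_add]
      abel
    · unfold D1 at hd
      rcases hd with hd | hd
      · refine ⟨f + 1 + (k + 1 - d), by omega,
          mem_cons_of_mem (mem_add.2 (Or.inr (mem_tk ?_)))⟩
        omega
      · refine ⟨0 + (f + k + 2 - d), by omega,
          mem_cons_of_mem (mem_add.2 (Or.inl (mem_tk ?_)))⟩
        omega
    · rw [map_cons, Multiset.map_add, tk_snd, tk_snd, ← replicate_add,
        show f + 1 + k - 1 = f + k by omega]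
      simp [key]

theorem odd_part {m : ℕ} (M : Multiset ℕ) (hM : ∀ z ∈ M, z % 2 = 1 ∧ 3 ≤ z ∧ z ≤ m) :
    ∃ K H c v, M = K + H ∧ H.Nodup ∧ c ≤ m - 1 ∧ G v 1 (fun _ => False) (K + replicate c 1) := by
  by_cases h0 : M = 0
  · exact ⟨0, 0, 0, 1, h0, nodup_zero, Nat.zero_le _, 0, _, st_dt 0, rfl, fun _ h => h.elim,
      by simp [tk]⟩
  obtain ⟨x, hx, hmax⟩ := exists_max_image (fun z => z) h0
  obtain ⟨M, rfl⟩ := exists_cons_of_mem hx
  have h1 := hM x hx
  obtain ⟨n, rfl⟩ : ∃ n, x = 2 * n + 1 := ⟨x / 2, by omega⟩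
  obtain ⟨j, K, H, rfl, h3, h4, h5, h6⟩ := plan n M fun z hz =>
    ⟨(hM z (mem_cons_of_mem hz)).1, (hM z (mem_cons_of_mem hz)).2.1, hmax z (mem_cons_of_mem hz)⟩
  obtain ⟨v, hv⟩ := h6 _ _ (start h4 h5)
  exact ⟨(2 * n + 1) ::ₘ K, H, 2 * n + 1 - 1, v, (cons_add _ _ _).symm, h3, by omega,
    by rwa [cons_add, ← add_cons]⟩

end Pool.Agent.Lib.MP_7ae50b_co.On
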